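import Mathlib
import Pool.Agent.Helper33.Boot.Result

set_option autoImplicit false

open SimpleGraph
open Pool.Agent.Helper35.Boot Pool.Agent.Helper33.Boot

namespace Pool.Agent.Results.MP_9c00c0_co.LowConnectivity

/-- Let `H` be a connected finite graph with at least three edges which has a vertex of degree at
most two or a bridge (an edge whose deletion disconnects `H`).  Then there is a constant `C` such
that the maximum running time of the `H`-process satisfies `M_H(n) ≤ C ex(n, H - e)` for every edge
`e` of `H` and every `n`. -/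
theorem result {W : Type*} [Finite W] (H : SimpleGraph W) (hconn : H.Connected)
    (hH : 3 ≤ H.edgeSet.ncard)
    (hcut : (∃ y, (H.neighborSet y).ncard ≤ 2) ∨ ∃ f : Sym2 W, ¬ (H.deleteEdges {f}).Connected) :
    ∃ C : ℝ, ∀ e ∈ H.edgeSet, ∀ n : ℕ,
      (maxRunTime H n : ℝ) ≤ C * extremalNumber n (H.deleteEdges {e}) := by
  obtain ⟨K, hK⟩ := uniform_bound H hconn hH hcut
  refine ⟨K, fun e he n => ?_⟩
  rcases Nat.lt_or_ge n 2 with hn | hn
  · rw [maxRunTime_eq_zero H (by omega)]
    simp only [Nat.cast_zero]
    positivity
  · have h1 : maxRunTime H n ≤ K * extremalNumber n (H.deleteEdges {e}) :=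
      Finset.sup_le fun G _ => hK e he n hn G
    exact_mod_cast h1

end Pool.Agent.Results.MP_9c00c0_co.LowConnectivity
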