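import Pool.Agent.Helper33.MS.P1
import Pool.Agent.Helper33.MS.P4
import Pool.Agent.Helper33.MS.PartTwo
import Pool.Agent.Helper91.MS.P3

/-!
# MP_9c00c0_co: the inequality of Q1 for every connected graph on a positive proportion of scales

For every connected graph `H` with at least three edges, `M_H(n) ≤ C min_e ex(n, H - e)` for all `n` in
`[2^j, 2^(j+1))`, for a positive proportion of the exponents `j`; so the set of such `n` has positive
lower logarithmic density.
-/

set_option autoImplicit false

open SimpleGraph
open Pool.Agent.Helper35.Boot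

namespace Pool.Agent.Results.MP_9c00c0_co.ManyScales

/-- Let `H` be a connected finite graph with at least three edges.  There are constants `C` and
`δ > 0` such that for all large `J` at least `δ J` of the exponents `j < J` are such that the
maximum running time of the `H`-process satisfies `M_H(n) ≤ C ex(n, H - e)` for every edge `e` of `H`
and every `n` with `2 ^ j ≤ n < 2 ^ (j + 1)`. -/
theorem result {W : Type*} [Finite W] (H : SimpleGraph W) (hconn : H.Connected)
    (hH : 3 ≤ H.edgeSet.ncard) :
    ∃ C δ : ℝ, 0 < δ ∧ ∃ J₀ : ℕ, ∀ J : ℕ, J₀ ≤ J → δ * J ≤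
      ({j : ℕ | j < J ∧ ∀ n : ℕ, 2 ^ j ≤ n → n < 2 ^ (j + 1) →
        ∀ e ∈ H.edgeSet, (maxRunTime H n : ℝ) ≤
          C * extremalNumber n (H.deleteEdges {e})} : Set ℕ).ncard :=
  Pool.Agent.Helper33.MS.P4 Pool.Agent.Helper33.MS.P1 Pool.Agent.Helper33.MS.PartTwo.P2
    Pool.Agent.Helper91.MS.P3 W H hconn hH

end Pool.Agent.Results.MP_9c00c0_co.ManyScales
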