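import Mathlib
import Pool.Agent.Helper35.Boot.Doubling

set_option autoImplicit false

open SimpleGraph Filter Asymptotics
open Pool.Agent.Helper35.Boot

namespace Pool.Agent.Results.MP_9c00c0_co.TuranTransfer

/-- Let `H` be a finite graph with at least three edges, `e` an edge of `H` and
`ex(n) = extremalNumber n (H - e)` the Turán number of `H - e`.  Then, for the maximum running
time `M(n) = maxRunTime H n` of the `H`-process on `n` vertices:
* `M(n) ≤ C (1 + log n)² ex(n)` for all `n`;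
* if `ex(n) = O(n ^ x)` for a real `x > 1` then `M(n) = O(n ^ x)`;
* if `ex(2n) ≥ (2 + δ) ex(n)` for all large `n` (some `δ > 0`) then `M(n) ≤ C ex(n)` for all `n`;
* `M(n) ≤ C ∑_{i ≤ log₂ n} (i + 1) 2 ^ i ex(⌊n / 2 ^ i⌋ + 1)` for all `n`. -/
theorem result {W : Type*} [Finite W] (H : SimpleGraph W) (hH : 3 ≤ H.edgeSet.ncard)
    (e : Sym2 W) (he : e ∈ H.edgeSet) :
    (∃ C : ℝ, ∀ n : ℕ, (maxRunTime H n : ℝ) ≤
      C * (1 + Real.log n) ^ 2 * extremalNumber n (H.deleteEdges {e})) ∧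
    (∀ x : ℝ, 1 < x →
      (fun n : ℕ => (extremalNumber n (H.deleteEdges {e}) : ℝ)) =O[atTop]
        (fun n : ℕ => (n : ℝ) ^ x) →
      (fun n : ℕ => (maxRunTime H n : ℝ)) =O[atTop] (fun n : ℕ => (n : ℝ) ^ x)) ∧
    (∀ δ : ℝ, 0 < δ →
      (∀ᶠ n : ℕ in atTop, (2 + δ) * (extremalNumber n (H.deleteEdges {e}) : ℝ) ≤
        extremalNumber (2 * n) (H.deleteEdges {e})) →
      ∃ C : ℝ, ∀ n : ℕ, (maxRunTime H n : ℝ) ≤ C * extremalNumber n (H.deleteEdges {e})) ∧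
    (∃ C : ℝ, ∀ n : ℕ, (maxRunTime H n : ℝ) ≤
      C * ∑ i ∈ Finset.range (Nat.log 2 n + 1), ((i : ℝ) + 1) * 2 ^ i *
        extremalNumber (n / 2 ^ i + 1) (H.deleteEdges {e})) := by
  refine ⟨polylog_bound H hH e he, fun x hx hO => poly_bound H hH e he x hx hO,
    fun δ hδ hD => doubling_bound H hH e he δ hδ hD, ?_⟩
  obtain ⟨C, -, hC⟩ := general_bound H hH e he
  exact ⟨C, hC⟩

end Pool.Agent.Results.MP_9c00c0_co.TuranTransfer
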